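import Mathlib

/-!
Fully invariant subgroups of a group: critical sections in a countable lattice without the
ascending chain condition.
-/

set_option autoImplicit false

namespace Pool.Agent.VarCrit

variable {F : Type*} [Group F]

/-- fully invariant subgroups -/
def FI (M : Subgroup F) : Prop := ∀ φ : F →* F, ∀ a ∈ M, φ a ∈ M

theorem FI.normal {M : Subgroup F} (h : FI M) : M.Normal :=
  ⟨fun n hn g => by simpa using h (MulAut.conj g).toMonoidHom n hn⟩

theorem FI.le_comap {M : Subgroup F} (h : FI M) (φ : F →* F) : M ≤ M.comap φ :=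
  fun a ha => h φ a ha

theorem FI.of_le_comap {M : Subgroup F} (h : ∀ φ : F →* F, M ≤ M.comap φ) : FI M :=
  fun φ _ ha => h φ ha

theorem FI.sup {M K : Subgroup F} (hM : FI M) (hK : FI K) : FI (M ⊔ K) :=
  FI.of_le_comap fun φ => sup_le
    (fun a ha => (le_sup_left : M ≤ M ⊔ K) (hM φ a ha))
    (fun a ha => (le_sup_right : K ≤ M ⊔ K) (hK φ a ha))

theorem FI.inf {M K : Subgroup F} (hM : FI M) (hK : FI K) : FI (M ⊓ K) :=
  fun φ a ha => ⟨hM φ a ha.1, hK φ a ha.2⟩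

theorem FI.top : FI (⊤ : Subgroup F) := fun _ _ _ => Subgroup.mem_top _

theorem FI.comm {M K : Subgroup F} (hM : FI M) (hK : FI K) : FI ⁅M, K⁆ := by
  refine FI.of_le_comap fun φ => ?_
  rw [Subgroup.commutator_le]
  intro a ha b hb
  rw [Subgroup.mem_comap, map_commutatorElement]
  exact Subgroup.commutator_mem_commutator (hM φ a ha) (hK φ b hb)

theorem fi_iSup {ι : Sort*} {M : ι → Subgroup F} (h : ∀ i, FI (M i)) : FI (⨆ i, M i) :=
  FI.of_le_comap fun φ => iSup_le fun i a ha => (le_iSup M i) (h i φ a ha)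

theorem fi_sSup {S : Set (Subgroup F)} (h : ∀ M ∈ S, FI M) : FI (sSup S) :=
  FI.of_le_comap fun φ => sSup_le fun M hM a ha => (le_sSup hM : M ≤ sSup S) (h M hM φ a ha)

theorem fi_sInf {S : Set (Subgroup F)} (h : ∀ M ∈ S, FI M) : FI (sInf S) := by
  intro φ a ha
  rw [Subgroup.mem_sInf] at ha ⊢
  exact fun M hM => h M hM φ a (ha M hM)

/-- fully invariant closure of `x` and `S` -/
def cl (x : Subgroup F) (S : Set F) : Subgroup F := sInf {M | FI M ∧ x ≤ M ∧ S ⊆ M}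

theorem cl_FI (x : Subgroup F) (S : Set F) : FI (cl x S) := fi_sInf fun _ hM => hM.1

theorem le_cl (x : Subgroup F) (S : Set F) : x ≤ cl x S := le_sInf fun _ hM => hM.2.1

theorem subset_cl (x : Subgroup F) (S : Set F) : S ⊆ cl x S := by
  intro a ha
  rw [SetLike.mem_coe, cl, Subgroup.mem_sInf]
  exact fun M hM => hM.2.2 ha

theorem cl_le {x z : Subgroup F} {S : Set F} (hz : FI z) (h1 : x ≤ z) (h2 : S ⊆ z) :
    cl x S ≤ z := sInf_le ⟨hz, h1, h2⟩

/-- `z` is generated as a fully invariant subgroup by `x` and finitely many elements -/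
def FG (x z : Subgroup F) : Prop :=
  ∃ S : Finset F, IsLeast {M : Subgroup F | FI M ∧ x ≤ M ∧ (S : Set F) ⊆ M} z

theorem isLeast_cl (x : Subgroup F) (S : Set F) :
    IsLeast {M : Subgroup F | FI M ∧ x ≤ M ∧ S ⊆ M} (cl x S) :=
  ⟨⟨cl_FI x S, le_cl x S, subset_cl x S⟩, fun _ hM => cl_le hM.1 hM.2.1 hM.2.2⟩

theorem FG_cl (x : Subgroup F) (S : Finset F) : FG x (cl x (S : Set F)) := ⟨S, isLeast_cl x _⟩

theorem FG.exists_eq {x z : Subgroup F} (h : FG x z) : ∃ S : Finset F, z = cl x (S : Set F) := by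
  obtain ⟨S, hS⟩ := h
  exact ⟨S, hS.unique (isLeast_cl x _)⟩

theorem FG.FI {x z : Subgroup F} (h : FG x z) : FI z := by
  obtain ⟨S, hS⟩ := h
  exact hS.1.1

theorem FG.le {x z : Subgroup F} (h : FG x z) : x ≤ z := by
  obtain ⟨S, hS⟩ := h
  exact hS.1.2.1

theorem FG.refl {x : Subgroup F} (h : VarCrit.FI x) : FG x x :=
  ⟨∅, ⟨h, le_rfl, by simp⟩, fun _ hM => hM.2.1⟩

theorem FG.trans {x y z : Subgroup F} (h : FG x y) (h' : FG y z) : FG x z := by
  classical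
  obtain ⟨S, rfl⟩ := h.exists_eq
  obtain ⟨T, rfl⟩ := h'.exists_eq
  refine ⟨S ∪ T, ⟨cl_FI _ _, (le_cl _ _).trans (le_cl _ _), ?_⟩, ?_⟩
  · rw [Finset.coe_union]
    exact Set.union_subset ((subset_cl x S).trans (le_cl _ _)) (subset_cl _ _)
  · intro M hM
    rw [Finset.coe_union] at hM
    exact cl_le hM.1 (cl_le hM.1 hM.2.1 (Set.subset_union_left.trans hM.2.2))
      (Set.subset_union_right.trans hM.2.2)

theorem FG.of_le {x y z : Subgroup F} (h : FG x z) (hxy : x ≤ y) (hyz : y ≤ z) : FG y z := by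
  obtain ⟨S, hS⟩ := h
  exact ⟨S, ⟨hS.1.1, hyz, hS.1.2.2⟩, fun M hM => hS.2 ⟨hM.1, hxy.trans hM.2.1, hM.2.2⟩⟩

theorem exists_index {z : ℕ → Subgroup F} (hz : Monotone z) (S : Finset F)
    (hS : (S : Set F) ⊆ (⨆ n, z n : Subgroup F)) : ∃ m, (S : Set F) ⊆ z m := by
  classical
  have h : ∀ s ∈ S, ∃ m, s ∈ z m := by
    intro s hs
    exact (Subgroup.mem_iSup_of_directed (directed_of_isDirected_le hz)).mp (hS hs)
  choose! m hm using h
  exact ⟨S.sup m, fun s hs => hz (Finset.le_sup (f := m) hs) (hm s hs)⟩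

theorem not_FG_iSup {x : Subgroup F} {z : ℕ → Subgroup F} (hz : StrictMono z)
    (hfi : ∀ n, FI (z n)) (hx : ∀ n, x ≤ z n) : ¬ FG x (⨆ n, z n) := by
  rintro ⟨S, hS⟩
  obtain ⟨m, hm⟩ := exists_index hz.monotone S hS.1.2.2
  have h1 : (⨆ n, z n) ≤ z m := hS.2 ⟨hfi m, hx m, hm⟩
  exact absurd ((le_iSup z (m + 1)).trans h1) (not_le_of_gt (hz (Nat.lt_succ_self m)))

/-- a critical section -/
structure Crit (x y : Subgroup F) : Prop where
  hx : FI x
  hy : FI y
  lt : x < y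
  nfg : ¬ FG x y
  fg : ∀ z, FI z → x ≤ z → z < y → FG x z

theorem Crit.replace {x x' y : Subgroup F} (h : Crit x y) (hx' : FI x') (h1 : x ≤ x')
    (h2 : x' < y) : Crit x' y where
  hx := hx'
  hy := h.hy
  lt := h2
  nfg := fun h3 => h.nfg ((h.fg x' hx' h1 h2).trans h3)
  fg := fun z hz h3 h4 => (h.fg z hz (h1.trans h3) h4).of_le h1 h3

theorem Crit.iSup_eq {x y : Subgroup F} (h : Crit x y) {z : ℕ → Subgroup F} (hz : StrictMono z)
    (hfi : ∀ n, FI (z n)) (hx : ∀ n, x ≤ z n) (hy : ∀ n, z n ≤ y) : (⨆ n, z n) = y := by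
  by_contra hne
  exact not_FG_iSup hz hfi hx (h.fg _ (fi_iSup hfi) ((hx 0).trans (le_iSup z 0))
    (lt_of_le_of_ne (iSup_le hy) hne))

/-- existence of critical sections (diagonal argument) -/
theorem exists_crit {N : Subgroup F} (hN : FI N)
    (hc : {M : Subgroup F | FI M ∧ N ≤ M}.Countable) {y₀ : Subgroup F} (hy₀ : FI y₀)
    (hNy : N ≤ y₀) (hfg : ¬ FG N y₀) : ∃ x y : Subgroup F, N ≤ x ∧ y ≤ y₀ ∧ Crit x y := by
  classical
  by_contra hcon
  have hH : ∀ x y : Subgroup F, FG N x → FI y → y ≤ y₀ → x ≤ y → ¬ FG N y →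
      ∃ y', FI y' ∧ x ≤ y' ∧ y' < y ∧ ¬ FG N y' := by
    intro x y hx hy hy0 hxy hny
    by_contra h
    push Not at h
    refine hcon ⟨x, y, hx.le, hy0, ⟨hx.FI, hy, lt_of_le_of_ne hxy ?_,
      fun h3 => hny (hx.trans h3), fun z hz h1 h2 => (h z hz h1 h2).of_le hx.le h1⟩⟩
    rintro rfl
    exact hny hx
  let St : Type _ := {p : Subgroup F × Subgroup F //
    FG N p.1 ∧ FI p.2 ∧ p.1 ≤ p.2 ∧ ¬ FG N p.2 ∧ p.2 ≤ y₀}
  have hstep : ∀ (e : Subgroup F) (s : St), ∃ s' : St, s.1.1 ≤ s'.1.1 ∧ s'.1.2 ≤ s.1.2 ∧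
      ∀ z, s'.1.1 ≤ z → z ≤ s'.1.2 → z ≠ e := by
    rintro e ⟨⟨x, y⟩, hx, hy, hxy, hny, hy0⟩
    obtain ⟨y', hy', hxy', hlt, hny'⟩ := hH x y hx hy hy0 hxy hny
    obtain ⟨w, hwy, hwy'⟩ := SetLike.exists_of_lt hlt
    by_cases hw : w ∈ e
    · refine ⟨⟨⟨x, y'⟩, hx, hy', hxy', hny', hlt.le.trans hy0⟩, le_rfl, hlt.le, ?_⟩
      rintro z - hz rfl
      exact hwy' (hz hw)
    · have h1 : FG x (cl x (({w} : Finset F) : Set F)) := FG_cl x {w}
      have h2 : w ∈ cl x (({w} : Finset F) : Set F) := subset_cl x _ (by simp)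
      refine ⟨⟨⟨cl x (({w} : Finset F) : Set F), y⟩, hx.trans h1, hy,
        cl_le hy hxy (by simpa using hwy), hny, hy0⟩, le_cl _ _, le_rfl, ?_⟩
      rintro z hz - rfl
      exact hw (hz h2)
  choose g hg1 hg2 hg3 using hstep
  obtain ⟨e, he⟩ := hc.exists_eq_range ⟨⊤, FI.top, le_top⟩
  let s : ℕ → St := fun n => Nat.rec ⟨⟨N, y₀⟩, FG.refl hN, hy₀, hNy, hfg, le_rfl⟩
    (fun k t => g (e k) t) n
  have hs : ∀ n, s (n + 1) = g (e n) (s n) := fun _ => rfl
  have hmono : Monotone fun n => (s n).1.1 :=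
    monotone_nat_of_le_succ fun n => by rw [hs]; exact hg1 _ _
  have hanti : Antitone fun n => (s n).1.2 :=
    antitone_nat_of_succ_le fun n => by rw [hs]; exact hg2 _ _
  have hle : ∀ m n, (s m).1.1 ≤ (s n).1.2 := by
    intro m n
    rcases le_total m n with h | h
    · exact (hmono h).trans (s n).2.2.2.1
    · exact (s m).2.2.2.1.trans (hanti h)
  have hz : (⨆ n, (s n).1.1) ∈ {M : Subgroup F | FI M ∧ N ≤ M} :=
    ⟨fi_iSup fun n => (s n).2.1.FI, (s 0).2.1.le.trans (le_iSup (fun n => (s n).1.1) 0)⟩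
  rw [he] at hz
  obtain ⟨n, hn⟩ := hz
  refine hg3 (e n) (s n) (⨆ n, (s n).1.1) ?_ ?_ hn.symm
  · rw [← hs]
    exact le_iSup (fun n => (s n).1.1) (n + 1)
  · rw [← hs]
    exact iSup_le fun m => hle m (n + 1)

theorem mem_sup_normal {M K : Subgroup F} (hM : M.Normal) {a : F} (ha : a ∈ M ⊔ K) :
    ∃ b ∈ M, ∃ c ∈ K, a = b * c := by
  have h : a ∈ ((M ⊔ K : Subgroup F) : Set F) := ha
  rw [Subgroup.normal_mul] at h
  obtain ⟨b, hb, c, hc, rfl⟩ := h
  exact ⟨b, hb, c, hc, rfl⟩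

/-- Moving a critical section up. -/
theorem Crit.up {x y m : Subgroup F} (h : Crit x y) (hm : FI m) (hxm : x ≤ m)
    (hmy : m ⊓ y ≤ x) : Crit m (m ⊔ y) := by
  classical
  have hmn := hm.normal
  refine ⟨hm, hm.sup h.hy, ?_, ?_, ?_⟩
  · refine lt_of_le_of_ne le_sup_left fun he => ?_
    have h1 : y ≤ m := by
      rw [he]
      exact le_sup_right
    exact absurd ((le_inf h1 le_rfl).trans hmy) (not_le_of_gt h.lt)
  · intro hfg
    obtain ⟨S, hS⟩ := hfg.exists_eq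
    have h1 : ∀ s ∈ S, ∃ b ∈ m, ∃ c ∈ y, s = b * c := by
      intro s hs
      refine mem_sup_normal hmn ?_
      rw [hS]
      exact subset_cl m _ hs
    choose! b hb c hc hbc using h1
    have hz1 : cl x ((S.image c : Finset F) : Set F) ≤ y := by
      refine cl_le h.hy h.lt.le ?_
      intro t ht
      rw [Finset.coe_image] at ht
      obtain ⟨s, hs, rfl⟩ := ht
      exact hc s hs
    have hz2 : m ⊔ y ≤ m ⊔ cl x ((S.image c : Finset F) : Set F) := by
      conv_lhs => rw [hS]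
      refine cl_le (hm.sup (cl_FI _ _)) le_sup_left ?_
      intro s hs
      rw [hbc s hs]
      refine mul_mem ((le_sup_left : m ≤ _) (hb s hs)) ?_
      refine (le_sup_right : cl x ((S.image c : Finset F) : Set F) ≤ _) ?_
      apply subset_cl
      rw [Finset.coe_image]
      exact ⟨s, hs, rfl⟩
    have hz3 : y ≤ cl x ((S.image c : Finset F) : Set F) := by
      intro a ha
      obtain ⟨u, hu, v, hv, rfl⟩ := mem_sup_normal hmn (hz2 ((le_sup_right : y ≤ m ⊔ y) ha))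
      refine mul_mem ((hmy.trans (le_cl _ _)) ⟨hu, ?_⟩) hv
      have := mul_mem ha (inv_mem (hz1 hv))
      simpa using this
    exact h.nfg (by
      rw [le_antisymm hz3 hz1]
      exact FG_cl _ _)
  · intro z hz h1 h2
    have h3 : z ⊓ y < y := by
      refine lt_of_le_of_ne inf_le_right fun he => ?_
      have : y ≤ z := by
        rw [← he]
        exact inf_le_left
      exact absurd (sup_le h1 this) (not_le_of_gt h2)
    obtain ⟨S, hS⟩ := (h.fg (z ⊓ y) (hz.inf h.hy) (le_inf (hxm.trans h1) h.lt.le) h3).exists_eq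
    refine ⟨S, ⟨hz, h1, ?_⟩, ?_⟩
    · intro s hs
      have : s ∈ z ⊓ y := by
        rw [hS]
        exact subset_cl _ _ hs
      exact this.1
    · rintro M ⟨hM1, hM2, hM3⟩ a ha
      obtain ⟨b, hb, c, hc, rfl⟩ := mem_sup_normal hmn (h2.le ha)
      have hcz : c ∈ z := by
        have := mul_mem (inv_mem (h1 hb)) ha
        simpa using this
      have hcS : c ∈ cl x (S : Set F) := by
        rw [← hS]
        exact ⟨hcz, hc⟩
      exact mul_mem (hM2 hb) (cl_le hM1 (hxm.trans hM2) hM3 hcS)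

theorem Crit.hereditary {x y m : Subgroup F} (h : Crit x y) (hm : FI m) (hxm : x ≤ m)
    (hym : ¬ y ≤ m) : Crit m (m ⊔ y) := by
  have h1 : Crit (m ⊓ y) y := by
    refine h.replace (hm.inf h.hy) (le_inf hxm h.lt.le) (lt_of_le_of_ne inf_le_right fun he => ?_)
    apply hym
    rw [← he]
    exact inf_le_left
  exact h1.up hm inf_le_left le_rfl

/-- Moving a critical section up to a completely meet irreducible bottom. -/
theorem Crit.exists_mono {x y : Subgroup F} (h : Crit x y) {w : F} (hw : w ∈ y) (hwx : w ∉ x) :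
    ∃ m : Subgroup F, x ≤ m ∧ Crit m (m ⊔ y) ∧ w ∉ m ∧ ∀ u, FI u → m < u → w ∈ u := by
  classical
  obtain ⟨m, hxm, hmax⟩ := zorn_le_nonempty₀
    {m : Subgroup F | FI m ∧ x ≤ m ∧ w ∉ m} (by
      intro c hc hchain v hv
      refine ⟨sSup c, ⟨fi_sSup fun M hM => (hc hM).1, (hc hv).2.1.trans (le_sSup hv), ?_⟩,
        fun M hM => le_sSup hM⟩
      intro ha
      rw [Subgroup.mem_sSup_of_directedOn ⟨v, hv⟩ hchain.directedOn] at ha
      obtain ⟨M, hM, haM⟩ := ha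
      exact (hc hM).2.2 haM) x ⟨h.hx, le_rfl, hwx⟩
  obtain ⟨⟨hm, -, hwm⟩, hmax'⟩ := hmax
  refine ⟨m, hxm, h.hereditary hm hxm (fun h1 => hwm (h1 hw)), hwm, ?_⟩
  intro u hu hmu
  by_contra hwu
  exact absurd (hmax' ⟨hu, hxm.trans hmu.le, hwu⟩ hmu.le) (not_le_of_gt hmu)

end Pool.Agent.VarCrit
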