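import Mathlib
import Pool.Agent.VarCrit.Crit

/-!
A variety with a word that is a law of all its proper subvarieties but not of itself is generated
by one finitely generated monolithic group.
-/

set_option autoImplicit false

namespace Pool.Agent.VarCrit

theorem exists_mem_closure (w : FreeGroup ℕ) :
    ∃ k : ℕ, w ∈ Subgroup.closure (FreeGroup.of '' Set.Iio k) := by
  have mono : ∀ {k l : ℕ}, k ≤ l → Subgroup.closure (FreeGroup.of '' Set.Iio k) ≤
      Subgroup.closure (FreeGroup.of '' Set.Iio l) := fun h =>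
    Subgroup.closure_mono (Set.image_mono (Set.Iio_subset_Iio h))
  induction w using FreeGroup.induction_on with
  | C1 => exact ⟨0, one_mem _⟩
  | of n => exact ⟨n + 1, Subgroup.subset_closure ⟨n, by simp, rfl⟩⟩
  | inv_of n h =>
    obtain ⟨k, hk⟩ := h
    exact ⟨k, inv_mem hk⟩
  | mul a b ha hb =>
    obtain ⟨k, hk⟩ := ha
    obtain ⟨l, hl⟩ := hb
    exact ⟨max k l, mul_mem (mono (le_max_left k l) hk) (mono (le_max_right k l) hl)⟩

/-- the laws of a quotient of a subgroup of `F / x` contain `x` -/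
theorem apply_eq_one {x : Subgroup (FreeGroup ℕ)} (hx : FI x) [x.Normal]
    (f : FreeGroup ℕ →* FreeGroup ℕ ⧸ x) {a : FreeGroup ℕ} (ha : a ∈ x) : f a = 1 := by
  have h : ∀ n : ℕ, ∃ b, QuotientGroup.mk' x b = f (FreeGroup.of n) := fun n =>
    QuotientGroup.mk'_surjective x _
  choose b hb using h
  have h1 : (QuotientGroup.mk' x).comp (FreeGroup.lift b) = f := by
    refine FreeGroup.ext_hom _ _ fun n => ?_
    simp only [MonoidHom.comp_apply, FreeGroup.lift_apply_of]
    exact hb n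
  rw [← h1]
  exact (QuotientGroup.eq_one_iff _).mpr (hx _ a ha)

theorem exists_group {x : Subgroup (FreeGroup ℕ)} (hx : FI x) {w : FreeGroup ℕ} (hw : w ∉ x)
    (hm : ∀ u, FI u → x < u → w ∈ u) :
    ∃ (G : Type) (_ : Group G) (g : G), Group.FG G ∧ g ≠ 1 ∧
      (∀ K : Subgroup G, K.Normal → K ≠ ⊥ → g ∈ K) ∧
      ∀ a, a ∈ x ↔ ∀ f : FreeGroup ℕ →* G, f a = 1 := by
  classical
  have hxn := hx.normal
  obtain ⟨k, hk⟩ := exists_mem_closure w
  let H : Subgroup (FreeGroup ℕ ⧸ x) := Subgroup.closure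
    ((fun i => QuotientGroup.mk' x (FreeGroup.of i)) '' (Set.Iio k))
  have hHfg : H.FG := by
    rw [Subgroup.fg_iff]
    exact ⟨_, rfl, (Set.finite_Iio k).image _⟩
  have hH : Group.FG H := (Group.fg_iff_subgroup_fg H).mpr hHfg
  have hgen : ∀ i, i < k → QuotientGroup.mk' x (FreeGroup.of i) ∈ H := fun i hi =>
    Subgroup.subset_closure ⟨i, hi, rfl⟩
  let f₀ : FreeGroup ℕ →* H := FreeGroup.lift fun i =>
    if h : i < k then ⟨QuotientGroup.mk' x (FreeGroup.of i), hgen i h⟩ else 1
  have hf₀ : H.subtype (f₀ w) = QuotientGroup.mk' x w := by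
    have h1 : Set.EqOn (H.subtype.comp f₀) (QuotientGroup.mk' x)
        (Subgroup.closure (FreeGroup.of '' Set.Iio k)) := by
      refine MonoidHom.eqOn_closure ?_
      rintro _ ⟨i, hi, rfl⟩
      have hi' : i < k := hi
      simp only [MonoidHom.comp_apply, f₀, FreeGroup.lift_apply_of, dif_pos hi']
      rfl
    exact h1 hk
  have hg₀ : f₀ w ≠ 1 := by
    intro h1
    rw [h1, map_one] at hf₀
    exact hw ((QuotientGroup.eq_one_iff _).mp hf₀.symm)
  -- a maximal normal subgroup without `f₀ w`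
  obtain ⟨K, -, hKmax⟩ := zorn_le_nonempty₀ {K : Subgroup H | K.Normal ∧ f₀ w ∉ K} (by
      intro c hc hchain v hv
      refine ⟨sSup c, ⟨?_, ?_⟩, fun M hM => le_sSup hM⟩
      · refine ⟨fun n hn g => ?_⟩
        rw [Subgroup.mem_sSup_of_directedOn ⟨v, hv⟩ hchain.directedOn] at hn ⊢
        obtain ⟨M, hM, hnM⟩ := hn
        exact ⟨M, hM, (hc hM).1.conj_mem n hnM g⟩
      · intro ha
        rw [Subgroup.mem_sSup_of_directedOn ⟨v, hv⟩ hchain.directedOn] at ha
        obtain ⟨M, hM, haM⟩ := ha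
        exact (hc hM).2 haM) ⊥ ⟨inferInstance, fun h => hg₀ (Subgroup.mem_bot.mp h)⟩
  obtain ⟨⟨hKn, hwK⟩, hKmax'⟩ := hKmax
  have hg1 : QuotientGroup.mk' K (f₀ w) ≠ 1 := fun h => hwK ((QuotientGroup.eq_one_iff _).mp h)
  have hlaw : ∀ a ∈ x, ∀ f : FreeGroup ℕ →* H ⧸ K, f a = 1 := by
    intro a ha f
    have h : ∀ n : ℕ, ∃ b, QuotientGroup.mk' K b = f (FreeGroup.of n) := fun n =>
      QuotientGroup.mk'_surjective K _
    choose b hb using h
    have h1 : (QuotientGroup.mk' K).comp (FreeGroup.lift b) = f := by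
      refine FreeGroup.ext_hom _ _ fun n => ?_
      simp only [MonoidHom.comp_apply, FreeGroup.lift_apply_of]
      exact hb n
    have h2 : (FreeGroup.lift b) a = 1 := by
      apply Subtype.val_injective
      exact apply_eq_one hx (H.subtype.comp (FreeGroup.lift b)) ha
    rw [← h1, MonoidHom.comp_apply, h2, map_one]
  refine ⟨H ⧸ K, inferInstance, QuotientGroup.mk' K (f₀ w), ?_, hg1, ?_, ?_⟩
  · exact QuotientGroup.fg K
  · intro L hL hL0
    by_contra hgL
    have h1 : K ≤ L.comap (QuotientGroup.mk' K) := by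
      intro a ha
      have h0 : QuotientGroup.mk' K a = 1 := (QuotientGroup.eq_one_iff a).mpr ha
      rw [Subgroup.mem_comap, h0]
      exact one_mem _
    have h2 : L.comap (QuotientGroup.mk' K) ≤ K := hKmax' ⟨hL.comap _, hgL⟩ h1
    apply hL0
    rw [eq_bot_iff]
    intro b hb
    obtain ⟨a, rfl⟩ := QuotientGroup.mk'_surjective K b
    exact Subgroup.mem_bot.mpr ((QuotientGroup.eq_one_iff a).mpr (h2 hb))
  · intro a
    refine ⟨hlaw a, fun ha => ?_⟩
    by_contra hax
    let L : Subgroup (FreeGroup ℕ) :=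
      { carrier := {w | ∀ f : FreeGroup ℕ →* H ⧸ K, f w = 1}
        mul_mem' := fun {a b} ha hb f => by rw [map_mul, ha f, hb f, one_mul]
        one_mem' := fun f => map_one f
        inv_mem' := fun {a} ha f => by rw [map_inv, ha f, inv_one] }
    have hL : FI L := fun φ b hb f => hb (f.comp φ)
    have hxL : x < L := by
      refine lt_of_le_of_ne (fun b hb => hlaw b hb) fun he => ?_
      apply hax
      rw [he]
      exact ha
    have h3 : w ∈ L := hm L hL hxL
    exact hg1 (h3 ((QuotientGroup.mk' K).comp f₀))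

end Pool.Agent.VarCrit
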