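import Mathlib
import Pool.Agent.VarCrit.Crit

/-!
Types of critical sections.
-/

set_option autoImplicit false

open scoped commutatorElement

namespace Pool.Agent.VarCrit

variable {F : Type*} [Group F]

theorem mk_eq_iff {x : Subgroup F} [x.Normal] {a b : F} :
    (QuotientGroup.mk' x a = QuotientGroup.mk' x b) ↔ a * b⁻¹ ∈ x := by
  rw [← mul_inv_eq_one, ← map_inv, ← map_mul]
  exact QuotientGroup.eq_one_iff _

theorem mk_eq_one {x : Subgroup F} [x.Normal] {a : F} :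
    (QuotientGroup.mk' x a = 1) ↔ a ∈ x := QuotientGroup.eq_one_iff _

theorem comm_mk {y z : Subgroup F} [z.Normal] (hc : ⁅y, y⁆ ≤ z) {a b : F} (ha : a ∈ y)
    (hb : b ∈ y) : Commute (QuotientGroup.mk' z a) (QuotientGroup.mk' z b) := by
  rw [← commutatorElement_eq_one_iff_commute, ← map_commutatorElement, mk_eq_one]
  exact hc (Subgroup.commutator_mem_commutator ha hb)

/-- roots -/
def rt (y z : Subgroup F) (n : ℕ) (hz : z.Normal) (hc : ⁅y, y⁆ ≤ z) : Subgroup F where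
  carrier := {v | v ∈ y ∧ v ^ n ∈ z}
  mul_mem' := by
    rintro a b ⟨ha, ha'⟩ ⟨hb, hb'⟩
    refine ⟨mul_mem ha hb, ?_⟩
    rw [← mk_eq_one] at ha' hb' ⊢
    rw [map_pow] at ha' hb' ⊢
    rw [map_mul, (comm_mk hc ha hb).mul_pow, ha', hb', one_mul]
  one_mem' := ⟨one_mem _, by simp⟩
  inv_mem' := by
    rintro a ⟨ha, ha'⟩
    exact ⟨inv_mem ha, by rw [inv_pow]; exact inv_mem ha'⟩

/-- powers -/
def pw (y z : Subgroup F) (n : ℕ) (hz : z.Normal) (hc : ⁅y, y⁆ ≤ z) : Subgroup F where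
  carrier := {a | ∃ b ∈ y, b ^ n * a⁻¹ ∈ z}
  mul_mem' := by
    rintro a a' ⟨b, hb, h⟩ ⟨b', hb', h'⟩
    refine ⟨b * b', mul_mem hb hb', ?_⟩
    rw [← mk_eq_iff] at h h' ⊢
    rw [map_pow] at h h' ⊢
    rw [map_mul, (comm_mk hc hb hb').mul_pow, h, h', map_mul]
  one_mem' := ⟨1, one_mem _, by simp⟩
  inv_mem' := by
    rintro a ⟨b, hb, h⟩
    refine ⟨b⁻¹, inv_mem hb, ?_⟩
    rw [← mk_eq_iff] at h ⊢
    rw [map_pow] at h ⊢
    rw [map_inv, inv_pow, h, map_inv]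

theorem FI.rt {y z : Subgroup F} {n : ℕ} (hy : FI y) (hz' : FI z) (hz : z.Normal)
    (hc : ⁅y, y⁆ ≤ z) : FI (rt y z n hz hc) := by
  rintro φ a ⟨ha, ha'⟩
  refine ⟨hy φ a ha, ?_⟩
  rw [← map_pow]
  exact hz' φ _ ha'

theorem FI.pw {y z : Subgroup F} {n : ℕ} (hy : FI y) (hz' : FI z) (hz : z.Normal)
    (hc : ⁅y, y⁆ ≤ z) : FI (pw y z n hz hc) := by
  rintro φ a ⟨b, hb, h⟩
  refine ⟨φ b, hy φ b hb, ?_⟩
  rw [← map_pow, ← map_inv, ← map_mul]
  exact hz' φ _ h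

/-- central or not -/
def Dich (x y : Subgroup F) : Prop :=
  ⁅y, (⊤ : Subgroup F)⁆ ≤ x ∨ y ≤ ⁅y, (⊤ : Subgroup F)⁆ ⊔ x

/-- perfect -/
def TA (x y : Subgroup F) : Prop := y ≤ ⁅y, y⁆ ⊔ x

/-- elementary abelian -/
def TB (x y : Subgroup F) : Prop :=
  ⁅y, y⁆ ≤ x ∧ ∃ p : ℕ, p.Prime ∧ ∀ a ∈ y, a ^ p ∈ x

/-- divisible abelian `p`-group -/
def TC (x y : Subgroup F) : Prop :=
  ⁅y, y⁆ ≤ x ∧ ∃ p : ℕ, p.Prime ∧ (∀ a ∈ y, ∃ k : ℕ, a ^ (p ^ k) ∈ x) ∧
    ∀ a ∈ y, ∃ b ∈ y, b ^ p * a⁻¹ ∈ x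

/-- rational vector space, with all fully invariant subgroups -/
def TD (x y : Subgroup F) : Prop :=
  ⁅y, y⁆ ≤ x ∧ ∀ z, FI z → x ≤ z → z ≤ y → ∀ n : ℕ, 0 < n →
    (∀ a ∈ y, a ^ n ∈ z → a ∈ z) ∧ ∀ a ∈ z, ∃ b ∈ z, b ^ n * a⁻¹ ∈ x

theorem Crit.exists_dich {x y : Subgroup F} (h : Crit x y) :
    ∃ x', x ≤ x' ∧ Crit x' y ∧ Dich x' y := by
  have hn := h.hy.normal
  by_cases hlt : ⁅y, (⊤ : Subgroup F)⁆ ⊔ x < y
  · exact ⟨_, le_sup_right, h.replace ((h.hy.comm FI.top).sup h.hx) le_sup_right hlt,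
      Or.inl le_sup_left⟩
  · refine ⟨x, le_rfl, h, Or.inr ?_⟩
    have h1 : ⁅y, (⊤ : Subgroup F)⁆ ⊔ x ≤ y := sup_le (Subgroup.commutator_le_left _ _) h.lt.le
    exact (eq_of_le_of_not_lt h1 hlt).symm.le

theorem Dich.mono {x x' y : Subgroup F} (h : Dich x y) (hx : x ≤ x') : Dich x' y := by
  rcases h with h | h
  · exact Or.inl (h.trans hx)
  · exact Or.inr (h.trans (sup_le_sup_left hx _))

theorem Crit.exists_type {x y : Subgroup F} (h : Crit x y) :
    ∃ x', x ≤ x' ∧ Crit x' y ∧ (TA x' y ∨ TB x' y ∨ TC x' y ∨ TD x' y) := by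
  classical
  have hyn := h.hy.normal
  by_cases hD : ⁅y, y⁆ ⊔ x < y
  swap
  · refine ⟨x, le_rfl, h, Or.inl ?_⟩
    have h1 : ⁅y, y⁆ ⊔ x ≤ y := sup_le (Subgroup.commutator_le_left _ _) h.lt.le
    exact (eq_of_le_of_not_lt h1 hD).symm.le
  have hDF : FI (⁅y, y⁆ ⊔ x) := (h.hy.comm h.hy).sup h.hx
  have h1 : Crit (⁅y, y⁆ ⊔ x) y := h.replace hDF le_sup_right hD
  have hc : ⁅y, y⁆ ≤ ⁅y, y⁆ ⊔ x := le_sup_left
  have hxD : x ≤ ⁅y, y⁆ ⊔ x := le_sup_right
  generalize ⁅y, y⁆ ⊔ x = D at hD hDF h1 hc hxD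
  have hDn := hDF.normal
  by_cases hE : ∃ p : ℕ, p.Prime ∧ pw y D p hDn hc < y
  · obtain ⟨p, hp, hlt⟩ := hE
    have hle : D ≤ pw y D p hDn hc := fun a ha => ⟨1, one_mem _, by simpa using ha⟩
    exact ⟨_, hxD.trans hle, h1.replace (h.hy.pw hDF hDn hc) hle hlt,
      Or.inr (Or.inl ⟨hc.trans hle, p, hp, fun a ha => ⟨a, ha, by simp⟩⟩)⟩
  have hdiv : ∀ p : ℕ, p.Prime → ∀ a ∈ y, ∃ b ∈ y, b ^ p * a⁻¹ ∈ D := by
    intro p hp a ha
    have h2 : pw y D p hDn hc ≤ y := by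
      rintro a ⟨b, hb, hab⟩
      have h3 := mul_mem (inv_mem (hD.le hab)) (pow_mem hb p)
      simpa using h3
    have h3 : y ≤ pw y D p hDn hc :=
      (eq_of_le_of_not_lt h2 (fun h => hE ⟨p, hp, h⟩)).symm.le
    exact h3 ha
  by_cases hR : ∃ z, FI z ∧ D ≤ z ∧ z < y ∧ ∃ p : ℕ, p.Prime ∧ ∃ a ∈ y, a ∉ z ∧ a ^ p ∈ z
  · obtain ⟨z, hz, hDz, hzy, p, hp, a, ha, haz, hap⟩ := hR
    have hzn := hz.normal
    have hcz : ⁅y, y⁆ ≤ z := hc.trans hDz
    have hb : ∀ n : ℕ, ∃ b ∈ y, (QuotientGroup.mk' z b) ^ (p ^ n) = QuotientGroup.mk' z a := by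
      intro n
      induction n with
      | zero => exact ⟨a, ha, by simp⟩
      | succ n ih =>
        obtain ⟨b, hb, hba⟩ := ih
        obtain ⟨c, hc', hcb⟩ := hdiv p hp b hb
        refine ⟨c, hc', ?_⟩
        have h4 : QuotientGroup.mk' z (c ^ p) = QuotientGroup.mk' z b := mk_eq_iff.mpr (hDz hcb)
        rw [pow_succ', pow_mul, ← map_pow, h4, hba]
    have hmono : StrictMono fun n : ℕ => rt y z (p ^ n) hzn hcz := by
      refine strictMono_nat_of_lt_succ fun n => ?_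
      rw [SetLike.lt_iff_le_and_exists]
      refine ⟨?_, ?_⟩
      · rintro v ⟨hv, hv'⟩
        refine ⟨hv, ?_⟩
        rw [pow_succ, pow_mul]
        exact pow_mem hv' p
      · obtain ⟨b, hb, hba⟩ := hb n
        refine ⟨b, ⟨hb, ?_⟩, ?_⟩
        · rw [← mk_eq_one, map_pow, pow_succ, pow_mul, hba, ← map_pow, mk_eq_one]
          exact hap
        · rintro ⟨-, hb'⟩
          apply haz
          rw [← mk_eq_one, ← hba, ← map_pow, mk_eq_one]
          exact hb'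
    have hsup : (⨆ n : ℕ, rt y z (p ^ n) hzn hcz) = y := by
      refine (h1.replace hz hDz hzy).iSup_eq hmono (fun n => h.hy.rt hz hzn hcz) ?_ ?_
      · intro n v hv
        exact ⟨hzy.le hv, pow_mem hv _⟩
      · rintro n v ⟨hv, -⟩
        exact hv
    refine ⟨z, hxD.trans hDz, h1.replace hz hDz hzy, Or.inr (Or.inr (Or.inl
      ⟨hcz, p, hp, ?_, ?_⟩))⟩
    · intro v hv
      rw [← hsup] at hv
      rw [Subgroup.mem_iSup_of_directed (directed_of_isDirected_le hmono.monotone)] at hv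
      obtain ⟨n, hn⟩ := hv
      exact ⟨n, hn.2⟩
    · intro v hv
      obtain ⟨b, hb, hbv⟩ := hdiv p hp v hv
      exact ⟨b, hb, hDz hbv⟩
  · have hroot : ∀ z, FI z → D ≤ z → z ≤ y → ∀ n : ℕ, 0 < n → ∀ a ∈ y, a ^ n ∈ z → a ∈ z := by
      intro z hz hDz hzy n
      rcases eq_or_lt_of_le hzy with rfl | hlt
      · exact fun _ a ha _ => ha
      induction n using Nat.strong_induction_on with
      | _ n ih =>
        intro hn a ha han
        rcases Nat.eq_or_lt_of_le (Nat.succ_le_of_lt hn) with h1n | h1n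
        · have : n = 1 := h1n.symm
          rw [this, pow_one] at han
          exact han
        · have hn1 : n ≠ 1 := by omega
          have hp := Nat.minFac_prime hn1
          obtain ⟨k, hk⟩ := Nat.minFac_dvd n
          have hk0 : 0 < k := by
            rcases Nat.eq_zero_or_pos k with h0 | h0
            · rw [h0, mul_zero] at hk
              omega
            · exact h0
          have hkn : k < n := by
            have h2 := hp.two_le
            calc k < 2 * k := by omega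
              _ ≤ n.minFac * k := Nat.mul_le_mul_right k h2
              _ = n := hk.symm
          refine ih k hkn hk0 a ha ?_
          by_contra hak
          refine hR ⟨z, hz, hDz, hlt, n.minFac, hp, a ^ k, pow_mem ha k, hak, ?_⟩
          rw [← pow_mul, mul_comm, ← hk]
          exact han
    have hdivn : ∀ n : ℕ, 0 < n → ∀ a ∈ y, ∃ b ∈ y, b ^ n * a⁻¹ ∈ D := by
      intro n
      induction n using Nat.strong_induction_on with
      | _ n ih =>
        intro hn a ha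
        rcases Nat.eq_or_lt_of_le (Nat.succ_le_of_lt hn) with h1n | h1n
        · have : n = 1 := h1n.symm
          exact ⟨a, ha, by simp [this]⟩
        · have hn1 : n ≠ 1 := by omega
          have hp := Nat.minFac_prime hn1
          obtain ⟨k, hk⟩ := Nat.minFac_dvd n
          have hk0 : 0 < k := by
            rcases Nat.eq_zero_or_pos k with h0 | h0
            · rw [h0, mul_zero] at hk
              omega
            · exact h0
          have hkn : k < n := by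
            have h2 := hp.two_le
            calc k < 2 * k := by omega
              _ ≤ n.minFac * k := Nat.mul_le_mul_right k h2
              _ = n := hk.symm
          obtain ⟨b, hb, hba⟩ := ih k hkn hk0 a ha
          obtain ⟨c, hc', hcb⟩ := hdiv _ hp b hb
          refine ⟨c, hc', ?_⟩
          rw [← mk_eq_iff] at hba hcb ⊢
          rw [map_pow] at hba hcb ⊢
          rw [hk, pow_mul, hcb, hba]
    refine ⟨D, hxD, h1, Or.inr (Or.inr (Or.inr ⟨hc, ?_⟩))⟩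
    intro z hz hDz hzy n hn
    refine ⟨hroot z hz hDz hzy n hn, ?_⟩
    intro a ha
    obtain ⟨b, hb, hba⟩ := hdivn n hn a (hzy ha)
    refine ⟨b, hroot z hz hDz hzy n hn b hb ?_, hba⟩
    have := mul_mem (hDz hba) ha
    simpa using this

section transfer

variable {x y m : Subgroup F}

theorem Dich.up (h : Dich x y) (hm : m.Normal) (hxm : x ≤ m) : Dich m (m ⊔ y) := by
  rcases h with h | h
  · left
    rw [Subgroup.commutator_le]
    intro g hg t _
    obtain ⟨b, hb, c, hc, rfl⟩ := mem_sup_normal hm hg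
    have h1 : QuotientGroup.mk' m b = 1 := mk_eq_one.mpr hb
    have h2 : ⁅c, t⁆ ∈ m := hxm (h (Subgroup.commutator_mem_commutator hc (Subgroup.mem_top t)))
    rw [← mk_eq_one, map_commutatorElement, map_mul, h1, one_mul, ← map_commutatorElement,
      mk_eq_one]
    exact h2
  · right
    exact sup_le le_sup_right (h.trans (sup_le_sup
      (Subgroup.commutator_mono le_sup_right le_rfl) hxm))

theorem TA.up (h : TA x y) (hxm : x ≤ m) : TA m (m ⊔ y) :=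
  sup_le le_sup_right (h.trans (sup_le_sup
      (Subgroup.commutator_mono le_sup_right le_sup_right) hxm))

theorem comm_up (h : ⁅y, y⁆ ≤ x) (hm : m.Normal) (hxm : x ≤ m) : ⁅m ⊔ y, m ⊔ y⁆ ≤ m := by
  rw [Subgroup.commutator_le]
  intro g hg t ht
  obtain ⟨b, hb, c, hc, rfl⟩ := mem_sup_normal hm hg
  obtain ⟨b', hb', c', hc', rfl⟩ := mem_sup_normal hm ht
  have h1 : QuotientGroup.mk' m b = 1 := mk_eq_one.mpr hb
  have h1' : QuotientGroup.mk' m b' = 1 := mk_eq_one.mpr hb'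
  have h2 : ⁅c, c'⁆ ∈ m := hxm (h (Subgroup.commutator_mem_commutator hc hc'))
  rw [← mk_eq_one, map_commutatorElement, map_mul, map_mul, h1, h1', one_mul, one_mul,
    ← map_commutatorElement, mk_eq_one]
  exact h2

theorem TB.up (h : TB x y) (hm : m.Normal) (hxm : x ≤ m) : TB m (m ⊔ y) := by
  obtain ⟨h0, p, hp, h1⟩ := h
  refine ⟨comm_up h0 hm hxm, p, hp, ?_⟩
  intro a ha
  obtain ⟨b, hb, c, hc, rfl⟩ := mem_sup_normal hm ha
  have h2 : QuotientGroup.mk' m b = 1 := mk_eq_one.mpr hb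
  rw [← mk_eq_one, map_pow, map_mul, h2, one_mul, ← map_pow, mk_eq_one]
  exact hxm (h1 c hc)

theorem TC.up (h : TC x y) (hm : m.Normal) (hxm : x ≤ m) : TC m (m ⊔ y) := by
  obtain ⟨h0, p, hp, h1, h3⟩ := h
  refine ⟨comm_up h0 hm hxm, p, hp, ?_, ?_⟩
  · intro a ha
    obtain ⟨b, hb, c, hc, rfl⟩ := mem_sup_normal hm ha
    have h2 : QuotientGroup.mk' m b = 1 := mk_eq_one.mpr hb
    obtain ⟨k, hk⟩ := h1 c hc
    refine ⟨k, ?_⟩
    rw [← mk_eq_one, map_pow, map_mul, h2, one_mul, ← map_pow, mk_eq_one]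
    exact hxm hk
  · intro a ha
    obtain ⟨b, hb, c, hc, rfl⟩ := mem_sup_normal hm ha
    have h2 : QuotientGroup.mk' m b = 1 := mk_eq_one.mpr hb
    obtain ⟨d, hd, hdc⟩ := h3 c hc
    refine ⟨d, (le_sup_right : y ≤ m ⊔ y) hd, ?_⟩
    rw [← mk_eq_iff, map_mul, h2, one_mul, mk_eq_iff]
    exact hxm hdc

theorem TD.up (h : TD x y) (hy : FI y) (hxy : x ≤ y) (hm : m.Normal) (hxm : x ≤ m) :
    TD m (m ⊔ y) := by
  obtain ⟨h0, h1⟩ := h
  refine ⟨comm_up h0 hm hxm, ?_⟩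
  intro z hz hmz hzy n hn
  obtain ⟨h3, h4⟩ := h1 (z ⊓ y) (hz.inf hy) (le_inf (hxm.trans hmz) hxy) inf_le_right n hn
  have hzn := hz.normal
  refine ⟨?_, ?_⟩
  · intro a ha han
    obtain ⟨b, hb, c, hc, rfl⟩ := mem_sup_normal hm ha
    have h2 : QuotientGroup.mk' z b = 1 := mk_eq_one.mpr (hmz hb)
    rw [← mk_eq_one, map_pow, map_mul, h2, one_mul, ← map_pow, mk_eq_one] at han
    exact mul_mem (hmz hb) (h3 c hc ⟨han, pow_mem hc n⟩).1
  · intro a ha
    obtain ⟨b, hb, c, hc, rfl⟩ := mem_sup_normal hm (hzy ha)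
    have h2 : QuotientGroup.mk' m b = 1 := mk_eq_one.mpr hb
    have hcz : c ∈ z := by
      have := mul_mem (inv_mem (hmz hb)) ha
      simpa using this
    obtain ⟨d, hd, hdc⟩ := h4 c ⟨hcz, hc⟩
    refine ⟨d, hd.1, ?_⟩
    rw [← mk_eq_iff, map_mul, h2, one_mul, mk_eq_iff]
    exact hxm hdc

end transfer

/-- the main theorem on critical sections -/
theorem exists_section {N : Subgroup F} (hN : FI N)
    (hc : {M : Subgroup F | FI M ∧ N ≤ M}.Countable) {y₀ : Subgroup F} (hy₀ : FI y₀)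
    (hNy : N ≤ y₀) (hfg : ¬ FG N y₀) : ∃ x y : Subgroup F, N ≤ x ∧ y ≤ x ⊔ y₀ ∧ Crit x y ∧
      (∃ w ∈ y, w ∉ x ∧ ∀ u, FI u → x < u → w ∈ u) ∧ Dich x y ∧
      (TA x y ∨ TB x y ∨ TC x y ∨ TD x y) := by
  obtain ⟨x₁, y, h1, h0, c1⟩ := exists_crit hN hc hy₀ hNy hfg
  obtain ⟨x₂, h2, c2, d2⟩ := c1.exists_dich
  obtain ⟨x₃, h3, c3, t3⟩ := c2.exists_type
  obtain ⟨w, hw, hwx⟩ := SetLike.exists_of_lt c3.lt
  obtain ⟨m, h4, c4, hwm, e4⟩ := c3.exists_mono hw hwx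
  have hm := c4.hx.normal
  refine ⟨m, m ⊔ y, ((h1.trans h2).trans h3).trans h4, sup_le_sup_left h0 m, c4,
    ⟨w, (le_sup_right : y ≤ m ⊔ y) hw, hwm, e4⟩, (d2.mono h3).up hm h4, ?_⟩
  rcases t3 with t | t | t | t
  · exact Or.inl (t.up h4)
  · exact Or.inr (Or.inl (t.up hm h4))
  · exact Or.inr (Or.inr (Or.inl (t.up hm h4)))
  · exact Or.inr (Or.inr (Or.inr (t.up c3.hy c3.lt.le hm h4)))

end Pool.Agent.VarCrit
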